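import Pool.Agent.Run7.h701.Kept.FixedNumberTwoPartX14
import Pool.Agent.Y948.CQ.C2

/-!
# The `2^∞`-Selmer groups of the quadratic twists of a curve without complex multiplication, by numbers
# with a fixed number of prime factors from an arbitrary set of primes

`E_D` is the quadratic twist by `D > 0` of the modular curve `X_0(14)`, which has no complex
multiplication.  A prime is split if it is `1` modulo `8` and a square modulo `7`, and inert if it is
`5` modulo `8` and not a square modulo `7`.  `D` is a squarefree number whose prime factors are split or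
inert, any number of them.  The sign of the functional equation of `E_D` is `+ 1`.

By the exact sequence `0 → E_D(ℚ) ⊗ ℚ₂/ℤ₂ → Sel → Ш(E_D/ℚ)[2^∞] → 0` the `2^∞`-Selmer group of `E_D`
is zero if and only if the rank is zero and `Ш(E_D/ℚ)[2^∞] = 0`.

* For each `D` this is the case if and only if `det R ≠ 0`, where `R` is the symmetric matrix over the
  field with two elements, with rows and columns indexed by the split prime factors `p` of `D`, with the
  quadratic symbols as entries outside of the diagonal, and the diagonal entry `1` if `8` does not divide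
  the number of the points modulo `p` of the twist by `D / p`.
* Let `P n = ∏_{i < (n+1)/2} (1 - 2^{-(2i+1)})`, the proportion of the invertible matrices among the
  symmetric `n` times `n` matrices over the field with two elements: `1, 1/2, 1/2, 7/16, 7/16, …`. Let
  `l ≥ 1`, let `k` be arbitrary, and suppose that the set `T` contains a positive proportion of the inert
  primes up to `Y` and (if `k > 0`) of the split ones, for all large `Y`. The number of the `D ≤ X` with
  `k` split and `l` inert prime factors, all of them in `T`, has the order of magnitude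
  `X (log log X)^(k+l-1) / log X`, and the `2^∞`-Selmer group is zero for exactly the proportion `P k`.
* If there are no inert prime factors, `b` split ones for which `8` divides the number of the points
  modulo `p` of `X_0(14)` and `r` for which it does not, then the proportion is `P (b+r-1)` for odd `r`,
  `P (b+r-2)` for even `r > 0`, and zero for `r = 0`.
* The numbers `P k` tend to `∏_{i ≥ 0} (1 - 2^{-(2i+1)}) = 0.4194...`, which is the probability that the
  `2^∞`-Selmer group is zero in the model of Bhargava, Kane, Lenstra, Poonen and Rains, for even corank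
  (twice `1/2 ∏_{i ≥ 1} (1 - 2^{1-2i})`).

The proof.  The descent for any number of split primes is in Pool/Agent/Run7/h743/SX (helper743: the
isogeny of degree two and its dual; the kernel of `R` gives explicit everywhere locally trivial
cocycles).  The law for random graphs with marked vertices is that of helper268
(Pool/Agent/Run7/h268/FN).
-/

set_option autoImplicit false

open Filter Topology

namespace Pool.Agent.Results.MP_a3f657_nt.FixedNumberTwoInfinityX14

open Pool.Agent.Results.MP_9c97e9_nt.AtMostTwoSplitPrimes (twist Sha2 rank Split Inert N R R_eq)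
open Run7.h701.Kept.FixedNumberTwoPartX14 (number Family SplitFamily Eight Dense count
  P card_symm_matrices Cl)

/-- The `2^∞`-Selmer group of `E_D` over `ℚ` is zero: the rank is zero, and the 2-primary part of the
Tate-Shafarevich group is trivial. -/
def SelmerZero (D : ℕ) : Prop :=
  rank ℚ (twist D) = 0 ∧ Nat.card (Sha2 ℚ (twist D)) = 1

/-- `F` has the order of magnitude `X (log log X)^(n-1) / log X`, and the `2^∞`-Selmer group of `E_D` is
zero for exactly the proportion `a` of the `D` in `F` -/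
def SelmerLaw (F : ℕ → Prop) (n : ℕ) (a : ℝ) : Prop :=
  (∃ (c C : ℝ) (X₀ : ℕ), 0 < c ∧ 0 < C ∧ ∀ X : ℕ, X₀ ≤ X →
    c * (X * Real.log (Real.log X) ^ (n - 1) / Real.log X) ≤ (count F X : ℝ) ∧
    (count F X : ℝ) ≤ C * (X * Real.log (Real.log X) ^ (n - 1) / Real.log X)) ∧
  Tendsto (fun X : ℕ => (count (fun D => F D ∧ SelmerZero D) X : ℝ) / (count F X : ℝ)) atTop (𝓝 a)

section proof

open Run7.h268.FN
open Pool.Agent.V11291.FK (PG Dn)
open Pool.Agent.Run7.h701.TW (nn)
open Run7.h701.Kept.FixedNumberTwoPartX14 (T' as_iff adm1 adm2 c1 c2 c1_iff c2_iff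
  fam1 fam2 dn_of_dense nn_eight not_both)

theorem criterion (A B : Finset ℕ) (hA : ∀ p ∈ A, Split p) (hB : ∀ q ∈ B, Inert q) (D : ℕ)
    (hD : D = (∏ p ∈ A, p) * ∏ q ∈ B, q) : SelmerZero D ↔ (R A B).det ≠ 0 := by
  rw [R_eq hA hB]
  exact Pool.Agent.Run7.h701.TW.alg_iff (P := A) (S := B) hA hB (D := (D : ℤ)) (by rw [hD])

open scoped Classical in
theorem sel_gd {T : Set ℕ} {D : ℕ} (h : Cl T D) :
    SelmerZero D ↔ GdM Split (nn 1) D.primeFactors := by
  set A := D.primeFactors.filter Split with hA
  set B := D.primeFactors.filter fun p => ¬ Split p with hB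
  have hP : ∀ p ∈ A, Split p := fun p hp => (Finset.mem_filter.1 hp).2
  have hS : ∀ q ∈ B, Inert q := by
    intro q hq
    obtain ⟨h1, h2⟩ := Finset.mem_filter.1 hq
    exact ((h.2 q (Nat.prime_of_mem_primeFactors h1) (Nat.dvd_of_mem_primeFactors h1)).2).resolve_left
      h2
  have hd : Disjoint A B := Finset.disjoint_filter_filter_not _ _ _
  have hu : A ∪ B = D.primeFactors := Finset.filter_union_filter_not_eq _ _
  have hD : D = (∏ p ∈ A, p) * ∏ q ∈ B, q := by
    rw [← Finset.prod_union hd, hu, Nat.prod_primeFactors_of_squarefree h.1]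
  rw [criterion A B hP hS D hD, R_eq hP hS, ← hu]
  exact (Pool.Agent.Run7.h701.TW.gdM_iff (P := A) (S := B) hP hS hd).symm

theorem law_of {T : Set ℕ} {F : ℕ → Prop} {cl : ℕ → ℕ} {M : ℕ → Prop} {a b u v : ℕ} {t : ℝ}
    (hA : Adm (AS (T' T)) cl Split M) (h : ∀ D, F D ↔ FamN (AS (T' T)) cl (ty a b u v) D)
    (hF : ∀ D, F D → Cl T D) (hab : 1 ≤ a + b) (h0 : 0 ≤ t) (h1 : t ≤ 1)
    (ht : @Prob (Fin a ⊕ Fin b) _ (ordS a b) (AS (T' T)) cl M (nn 1) (ty a b u v) t)
    (hD : ∀ i, Dn (PG (AS (T' T)) cl (ty a b u v) i)) : SelmerLaw F (a + b) t := by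
  have e : F = FamN (AS (T' T)) cl (ty a b u v) := funext fun D => propext (h D)
  have e2 : (fun D => F D ∧ SelmerZero D) =
      fun D => FamN (AS (T' T)) cl (ty a b u v) D ∧ GdM Split (nn 1) D.primeFactors := by
    funext D
    rw [← e]
    exact propext (and_congr_right fun hD => sel_gd (hF D hD))
  unfold SelmerLaw
  rw [e2, e]
  exact law_ty hA hab h0 h1 ht hD

theorem law_mixed (T : Set ℕ) (k l : ℕ) (hl : 1 ≤ l) (hk : 0 < k → Dense T Split)
    (hi : Dense T Inert) : SelmerLaw (Family T k l) (k + l) (P k) := by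
  let _ : LinearOrder (Fin k ⊕ Fin l) := ordS k l
  refine law_of (adm1 T) (fun D => fam1) (fun D hD => ⟨hD.1, hD.2.1⟩)
    (by omega) (sp_nonneg k) (sp_le_one k) ?_ ?_
  · intro p _
    have h1 := card_JM (fun r => r = 1) k l 1 0 rfl zero_ne_one
    have h2 := PrT_unmarked Pool.Agent.Y839.CQ.t_SYM (JM (fun r => r = 1) (ty k l 1 0))
      ⟨Sum.inr ⟨0, by omega⟩, fun h => by
        unfold JM at h
        simp only [Finset.mem_filter] at h
        exact absurd h.2 zero_ne_one⟩ (fun i => nn 1 (p i))
    rw [h1] at h2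
    exact h2
  · rintro (i | i)
    · refine dn_of_dense (hk (by have := i.2; omega)) fun p hp hT hs => ?_
      exact ⟨as_iff.2 ⟨hp, hT, Or.inl hs⟩, (c1_iff p).1.2 hs⟩
    · refine dn_of_dense hi fun p hp hT hs => ?_
      exact ⟨as_iff.2 ⟨hp, hT, Or.inr hs⟩, (c1_iff p).2.2 (not_both hs)⟩

theorem law_split (T : Set ℕ) (b r : ℕ) (hbr : 1 ≤ b + r)
    (hb : 0 < b → Dense T fun p => Split p ∧ Eight p)
    (hr : 0 < r → Dense T fun p => Split p ∧ ¬ Eight p) :
    SelmerLaw (SplitFamily T b r) (b + r)
      (if r = 0 then 0 else if Odd r then P (b + r - 1) else P (b + r - 2)) := by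
  have h01 := prp_mem b r
  refine law_of (adm2 T) (fun D => fam2) (fun D hD => ?_) hbr h01.1 h01.2 ?_ ?_
  · exact ⟨hD.1, fun p hp hd => ⟨(hD.2.1 p hp hd).1, Or.inl (hD.2.1 p hp hd).2⟩⟩
  · exact prob_all (nn 1) one_ne_zero two_ne_zero hbr
      (fun p _ h => (nn_eight ((c2_iff p).1.1 h).1).1 ((c2_iff p).1.1 h).2)
      fun p _ h => (nn_eight ((c2_iff p).2.1.1 h).1).2 ((c2_iff p).2.1.1 h).2
  · rintro (i | i)
    · refine dn_of_dense (hb (by have := i.2; omega)) fun p hp hT hs => ?_
      exact ⟨as_iff.2 ⟨hp, hT, Or.inl hs.1⟩, (c2_iff p).1.2 hs⟩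
    · refine dn_of_dense (hr (by have := i.2; omega)) fun p hp hT hs => ?_
      exact ⟨as_iff.2 ⟨hp, hT, Or.inl hs.1⟩, (c2_iff p).2.1.2 hs⟩

end proof

/-- the constant `0.4194...` -/
noncomputable def c : ℝ := ∏' i : ℕ, (1 - (1 / 2 : ℝ) ^ (2 * i + 1))

theorem lim_P : Tendsto P atTop (𝓝 c) := by
  have h := Pool.Agent.Y948.CQ.t_C2.1
  have h1 : Tendsto (fun n : ℕ => ∏ i ∈ Finset.range n, (1 - (1 / 2 : ℝ) ^ (2 * i + 1))) atTop (𝓝 c) := by
    rw [tendsto_iff_dist_tendsto_zero]
    refine squeeze_zero (fun n => dist_nonneg) (fun n => ?_)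
      (tendsto_pow_atTop_nhds_zero_of_lt_one (by norm_num : (0 : ℝ) ≤ 1 / 4) (by norm_num))
    rw [Real.dist_eq]
    exact h n
  have h2 : Tendsto (fun n : ℕ => (n + 1) / 2) atTop atTop := by
    refine tendsto_atTop.2 fun b => eventually_atTop.2 ⟨2 * b, fun n hn => ?_⟩
    omega
  exact h1.comp h2

/-- **The `2^∞`-Selmer groups of the twists of `X_0(14)`.** -/
theorem result :
    -- the numbers `P n`
    (∀ n : ℕ, (Nat.card {M : Matrix (Fin n) (Fin n) (ZMod 2) // M.IsSymm ∧ M.det ≠ 0} : ℝ) =
      P n * Nat.card {M : Matrix (Fin n) (Fin n) (ZMod 2) // M.IsSymm}) ∧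
    Tendsto P atTop (𝓝 c) ∧ 0.4194 < c ∧ c < 0.4195 ∧
    -- a single number
    (∀ A B : Finset ℕ, (∀ p ∈ A, Split p) → (∀ q ∈ B, Inert q) → ∀ D : ℕ,
      D = (∏ p ∈ A, p) * ∏ q ∈ B, q → (SelmerZero D ↔ (R A B).det ≠ 0)) ∧
    -- at least one inert prime factor
    (∀ (T : Set ℕ) (k l : ℕ), 1 ≤ l → (0 < k → Dense T Split) → Dense T Inert →
      SelmerLaw (Family T k l) (k + l) (P k)) ∧
    -- no inert prime factor
    (∀ (T : Set ℕ) (b r : ℕ), 1 ≤ b + r → (0 < b → Dense T fun p => Split p ∧ Eight p) →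
      (0 < r → Dense T fun p => Split p ∧ ¬ Eight p) →
      SelmerLaw (SplitFamily T b r) (b + r)
        (if r = 0 then 0 else if Odd r then P (b + r - 1) else P (b + r - 2))) ∧
    -- the residue classes satisfy the conditions of the first case
    (∀ q c : ℕ, Nat.Coprime q 14 → Nat.Coprime c q →
      Dense {p | p % q = c % q} Split ∧ Dense {p | p % q = c % q} Inert) :=
  ⟨card_symm_matrices, lim_P, Pool.Agent.Y948.CQ.t_C2.2.2.2.1, Pool.Agent.Y948.CQ.t_C2.2.2.2.2,
    criterion, law_mixed, law_split,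
    Run7.h701.Kept.FixedNumberTwoPartX14.result.2.2.2.2⟩

end Pool.Agent.Results.MP_a3f657_nt.FixedNumberTwoInfinityX14
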