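import Mathlib
import Pool.Agent.Run7.h460.JR.CorR

/-!
# The joint law of the `3^∞`-Selmer groups of several cubic twists over `ℚ(√-3)`

`K` is the field of third roots of unity, `E_D : y² + D y = x³`, `Sel D` is the `3^∞`-Selmer group of
`E_D` over `K`, and `killed ω D` is the kernel of the endomorphism `√-3 = 1 + 2 ω` on it.

Let `δ_t(a) = c_t ∏ a_i ^ e_{ti}`, `t = 1, ..., q`, be monomials in cube-free elements `a_1, ..., a_m`
of `𝓞 K` that are third roots of unity modulo `3` (the coefficients `c_t` are fixed elements of the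
same kind). We assume that every monomial really depends on the `a_i` (modulo cubes) and that no
`δ_t δ_{t'}` and no `δ_t δ_{t'}²` is a constant cube times a cube. The `a_i` run through a class modulo
`9` (`3 ∣ a_i - r_i` and `9 ∣ N a_i - N r_i`) for which all the `δ_t` are `1` modulo `3` with a norm
that is not `1` modulo `9`.

* There are at least `C X ^ m` tuples with `N a_i ≤ X`.
* For all of them, and all `t`, `δ_t(a)` is not a cube, `killed ω δ_t(a)` has order `3 ^ k` for some
  `k`, the rank of `E_{δ_t(a)}(K)` over `ℤ` is at most `2 k`, and `k = 0` if and only if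
  `Sel δ_t(a) = 0`.
* **The joint law:** for all `s_1, ..., s_q ≥ 0` the proportion of the tuples for which
  `killed ω δ_t(a)` has order `3 ^ s_t` for all `t` tends to the product of the
  `prob s_t = ∏_{i ≥ 0} (1 - 3^{-(2 i + 1)}) / ((3 - 1) (9 - 1) ⋯ (3 ^ s_t - 1))`: the Selmer groups of
  the `q` curves are asymptotically independent. The same for the joint distribution function.
* The lower density of the tuples for which the rank of `E_{δ_t(a)}(K)` is at most `2 s_t` for all `t`
  is at least the product of the `prob 0 + ⋯ + prob s_t`.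

The case of one monomial `δ = a` in one variable, with `a = 1` modulo `3`, is
`MP_a3f657_nt/CubeFreeTwistsThreeInfinity.lean` of the starting tree (helper419, after helper703 and
others). The count behind the joint law is that of helper707 (`Run7/h707/TC`, `TF`) and of the projects
named there.
-/

set_option autoImplicit false

namespace Pool.Agent.Results.MP_a3f657_nt.JointLawCubicTwists

open NumberField WeierstrassCurve Filter
open Pool.Agent.TH841.SH.D (Pt act Gal Coch)
open Pool.Agent.TH841.NF.D (IsShaCoc shaCoc)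
open scoped Classical

section curves
variable {K : Type} [Field K] [NumberField K]

/-- The curve `E_D : y² + D y = x³`. -/
def curve {K : Type} [Field K] (D : K) : WeierstrassCurve K := ⟨0, 0, D, 0, 0⟩

/-- The endomorphism `(x, y) ↦ (ω x, y)` of `E_D` for a third root of unity `ω`, on the points over
an extension `L`. -/
noncomputable def rotation {K : Type} [Field K] (D ω : K) (L : Type) [Field L] [Algebra K L] :
    Pt (curve D) L → Pt (curve D) L
  | 0 => 0
  | .some x y _ =>
    if h : ((curve D).baseChange L).toAffine.Nonsingular (algebraMap K L ω * x) y then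
      .some _ y h
    else 0

/-- The group of the continuous cocycles of the absolute Galois group of `K` with values in
`E_D[3^∞]` that are coboundaries in `E_D` at all the places of `K`. -/
def Cocycles (D : K) : AddSubgroup (Coch (curve D)) where
  carrier := {f | IsShaCoc (curve D) f ∧ ∀ σ, ∃ n : ℕ, 3 ^ n • f σ = 0}
  zero_mem' := (Pool.Agent.Y703.XL.Inf.selCoc D).zero_mem'
  add_mem' := (Pool.Agent.Y703.XL.Inf.selCoc D).add_mem'
  neg_mem' := (Pool.Agent.Y703.XL.Inf.selCoc D).neg_mem'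

/-- The group of the coboundaries of the points of `E_D[3^∞]`. -/
def Coboundaries (D : K) : AddSubgroup (Coch (curve D)) where
  carrier := {f | ∃ P : Pt (curve D) (AlgebraicClosure K), (∃ n : ℕ, 3 ^ n • P = 0) ∧
    ∀ σ : Gal K, f σ = act (curve D) σ.toAlgHom P - P}
  zero_mem' := (Pool.Agent.Y703.XL.Inf.cobInf D).zero_mem'
  add_mem' := (Pool.Agent.Y703.XL.Inf.cobInf D).add_mem'
  neg_mem' := (Pool.Agent.Y703.XL.Inf.cobInf D).neg_mem'

/-- The `3^∞`-Selmer group of `E_D` over `K`: the kernel of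
`H¹(K, E_D[3^∞]) → ∏ H¹(K_v, E_D)`. -/
def Sel (D : K) : Type := Cocycles D ⧸ (Coboundaries D).addSubgroupOf (Cocycles D)

/-- The group law of the `3^∞`-Selmer group. -/
noncomputable instance Sel.group (D : K) : AddCommGroup (Sel D) :=
  @QuotientAddGroup.Quotient.addCommGroup (Cocycles D) _
    ((Coboundaries D).addSubgroupOf (Cocycles D))

/-- The class of a cocycle. -/
noncomputable def cls {D : K} (f : Cocycles D) : Sel D := QuotientAddGroup.mk f

/-- The kernel of the endomorphism `√-3 = 1 + 2 ω` on the `3^∞`-Selmer group: the classes of the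
cocycles `f` for which `σ ↦ f σ + 2 ω (f σ)` is a coboundary. -/
def killed (ω D : K) : Set (Sel D) :=
  {x | ∃ f : Cocycles D, cls f = x ∧
    (fun σ => f.1 σ + (2 : ℕ) • rotation D ω (AlgebraicClosure K) (f.1 σ) : Coch (curve D)) ∈
      Coboundaries D}

/-- The `3^∞`-Selmer group is trivial. -/
def Trivial (D : K) : Prop := ∀ x : Sel D, x = 0

/-- The rank of `E_D(K)` over `ℤ`. -/
noncomputable def rank (D : K) : ℕ := Module.finrank ℤ (curve D).toAffine.Point

end curves

section tuples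
variable {K : Type} [Field K] [NumberField K] {m q : ℕ}

/-- `a` is cube-free and a third root of unity modulo `3`. -/
def IsAdm (a : 𝓞 K) : Prop :=
  (∀ x : 𝓞 K, x ^ 3 ∣ a → IsUnit x) ∧ ∃ ω : 𝓞 K, ω ^ 3 = 1 ∧ (3 : 𝓞 K) ∣ a - ω

/-- The monomials `δ_t(a) = c_t ∏ a_i ^ e_{ti}`. -/
noncomputable def twist (c : Fin q → 𝓞 K) (e : Fin q → Fin m → ℕ) (a : Fin m → 𝓞 K) (t : Fin q) :
    𝓞 K :=
  c t * ∏ i, a i ^ e t i

/-- `δ_t δ_{t'}` or `δ_t δ_{t'}²` is a cube of a monomial: the exponents are divisible by three and the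
coefficient is a cube. -/
def Related (c : Fin q → 𝓞 K) (e : Fin q → Fin m → ℕ) (t t' : Fin q) : Prop :=
  ∃ f : ℕ, (f = 1 ∨ f = 2) ∧ (∀ i, 3 ∣ e t i + f * e t' i) ∧ ∃ x : 𝓞 K, c t * c t' ^ f = x ^ 3

/-- The tuples of admissible elements in the class of `r`. -/
def InClass (r a : Fin m → 𝓞 K) : Prop :=
  ∀ i, IsAdm (a i) ∧ (3 : 𝓞 K) ∣ a i - r i ∧ (9 : ℤ) ∣ Algebra.norm ℤ (a i) - Algebra.norm ℤ (r i)

/-- The number of the tuples with the property `P` whose components have norm at most `X`. -/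
noncomputable def number (X : ℕ) (P : (Fin m → 𝓞 K) → Prop) : ℝ :=
  ({a : Fin m → 𝓞 K | (∀ i, Algebra.norm ℤ (a i) ≤ X) ∧ P a}.ncard : ℝ)

/-- The proportion of the tuples with the property `P` among the tuples of the class of `r` whose
components have norm at most `X`. -/
noncomputable def proportion (r : Fin m → 𝓞 K) (P : (Fin m → 𝓞 K) → Prop) (X : ℕ) : ℝ :=
  number X (fun a => InClass r a ∧ P a) / number X (InClass r)

end tuples

/-- `∏_{i ≥ 0} (1 - 3^{-(2 i + 1)}) / ((3 - 1) (9 - 1) ⋯ (3 ^ r - 1))`. -/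
noncomputable def prob (r : ℕ) : ℝ :=
  (∏' i : ℕ, (1 - (1 / 3 : ℝ) ^ (2 * i + 1))) / ∏ i ∈ Finset.range r, ((3 : ℝ) ^ (i + 1) - 1)

theorem result (K : Type) [Field K] [NumberField K] [IsCyclotomicExtension {3} ℚ K] (ω : K)
    (hω : ω ^ 2 + ω + 1 = 0) {m q : ℕ}
    -- the monomials
    (c : Fin q → 𝓞 K) (e : Fin q → Fin m → ℕ) (hc : ∀ t, IsAdm (c t))
    (he : ∀ t, ∃ i, ¬ 3 ∣ e t i) (hsep : ∀ t t', t ≠ t' → ¬ Related c e t t')
    -- the class
    (r : Fin m → 𝓞 K) (hr : ∀ i, IsAdm (r i)) (h3 : ∀ t, (3 : 𝓞 K) ∣ twist c e r t - 1)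
    (h9 : ∀ t, ¬ (9 : ℤ) ∣ Algebra.norm ℤ (twist c e r t) - 1) :
    (∃ (C : ℝ) (X₀ : ℕ), 0 < C ∧ ∀ X : ℕ, X₀ ≤ X → C * (X : ℝ) ^ m ≤ number X (InClass r)) ∧
    (∀ a : Fin m → 𝓞 K, InClass r a → ∀ t,
      (∀ x : K, x ^ 3 ≠ (twist c e a t : K)) ∧
      (∃ k : ℕ, (killed ω (twist c e a t : K)).ncard = 3 ^ k ∧ rank (twist c e a t : K) ≤ 2 * k) ∧
      ((killed ω (twist c e a t : K)).ncard = 1 ↔ Trivial (twist c e a t : K))) ∧
    -- the joint law
    (∀ s : Fin q → ℕ, Tendsto
      (proportion r fun a => ∀ t, (killed ω (twist c e a t : K)).ncard = 3 ^ s t) atTop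
      (nhds (∏ t, prob (s t)))) ∧
    (∀ s : Fin q → ℕ, Tendsto
      (proportion r fun a => ∀ t, (killed ω (twist c e a t : K)).ncard ≤ 3 ^ s t) atTop
      (nhds (∏ t, ∑ i ∈ Finset.range (s t + 1), prob i))) ∧
    -- the ranks
    (∀ (s : Fin q → ℕ) (ε : ℝ), 0 < ε → ∀ᶠ X : ℕ in atTop,
      ∏ t, ∑ i ∈ Finset.range (s t + 1), prob i - ε ≤
        proportion r (fun a => ∀ t, rank (twist c e a t : K) ≤ 2 * s t) X) ∧
    ((∀ k, 0 < prob k) ∧ 0.639 < prob 0 ∧ prob 0 < 0.6391 ∧ HasSum prob 1) := by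
  obtain ⟨h1, h2, h4⟩ := Run7.h460.JR.finR K ω hω c e hc he hsep r hr h3 h9
  exact ⟨h1, fun a ha t => ⟨(h4 a ha t).nc, (h4 a ha t).rk, (h4 a ha t).triv⟩, h2,
    Run7.h460.JR.cumR h2 h4, fun s ε hε => Run7.h460.JR.rankR h2 h4 s hε,
    Pool.Agent.R419.KL.prob_facts⟩

end Pool.Agent.Results.MP_a3f657_nt.JointLawCubicTwists
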