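import Pool.Agent.Run7.h245.DJ.As5
import Pool.Agent.Run7.h245.DJ.Inf
import Pool.Agent.Run7.h245.DJ.Cst

/-!
# The 2-infinity Selmer groups of all elliptic curves of a congruence family over `ℚ`

Elliptic curves over `ℚ` up to isomorphism in the order of the problem: the pairs `(a, b)` of integers with `4 a³ + 27 b² ≠ 0` such
that no prime `q` has `q⁴ ∣ a` and `q⁶ ∣ b`, curve `y² = x³ + a x + b`, height `H = max (|a|³, |b|²)` (the minimum over all models is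
attained at this one). `S = Sel_{2^∞}` is the group of the continuous cocycles with values in the points of 2-power order which
are coboundaries over all completions, modulo the coboundaries of points of 2-power order.

Theorem. For every `δ > 0` there is a nonempty congruence family `𝔉 ⊆ ℤ × ℤ` (a union of residue classes modulo some `m ≥ 1`)
such that for all large `X`, among the curves of the family of height at most `X`:

* the proportion of the curves with `S = 0`, that is with `Seq = 0` (rank `0` and `Ш[2^∞] = 0`), is within `δ` of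
  `1/2 ∏_{i ≥ 1} (1 - 2 ^ (1 - 2 i)) = 0.2097...`, the value of the model of Bhargava, Kane, Lenstra, Poonen and Rains (the formula of
  Q1 with `r = 0`, `G = 0`, `p = 2`);
* for every set `E` of natural numbers the proportion of the curves with `|S[2]| = 2 ^ d`, `d ∈ E`, is within `δ` of the probability of
  this event in the model, `∑_{d ∈ E} C_{2,d}`, `C_{2,d} = ∏_{j ≥ 0} (1 + 2 ^ (-j))⁻¹ ∏_{i = 1}^d 2 / (2 ^ i - 1)` (two random maximal isotropic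
  subspaces modulo `2`): the law of `S[2]` is within `δ` of the law of the model in total variation.

Known before: quadratic twists of ONE curve (Heath-Brown, Swinnerton-Dyer, Kane, Klagsbrun-Mazur-Rubin, Smith, who has the law of
all of `Sel_{2^∞}` there), averages of `Sel_n`, `n ≤ 5`, over all curves (Bhargava-Shankar), which do not give the proportion of
`S = 0`. The family `𝔉` depends on `δ` and cannot be prescribed; nothing is proved about the other groups `S` with a given `S[2]`.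

The proof is that of `MP_8cb858_nt.PoonenRainsCongruenceFamily` (project DI: pseudorandom levels of primes from the geometry of
numbers, isotropy by reciprocity, exact size over `ℚ`, Markov chain of the dimensions, two windows for the parity), in the order
of this page and with control of the curves with a rational point of order two (`Pool/Agent/Run7/h245/DJ`), together with: if
`x³ + a x + b` is irreducible then `S[2] = Sel_2` and `S = 0` if and only if `Sel_2 = 0` (`DJ/Inf.lean`), and the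
identity of Euler between the two products (`DJ/Cst.lean`). Pieces of project DI: helpers 834, 915, 824, 594, 224, 610, 437, 942, 799,
847, 83; of projects SR, MO: see there. `Pt`, `Sep`, `act`, `rs`, `IsCoc`, `LocTriv`, `Comp` are the group of points, separable closures, the
action of the Galois group, continuous cocycles and their restriction to completions of `Pool.Agent.TH115.GD`.
-/

set_option autoImplicit false
set_option linter.all false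

namespace Pool.Agent.Results.MP_a3f657_nt.TwoInfinityCongruenceFamily

open Filter NumberField IsDedekindDomain Pool.Agent.TH115.GD
open scoped Classical

/-- The probability that the 2-torsion of the group `S` of the model has `2 ^ d` elements. -/
noncomputable def prob (d : ℕ) : ℝ :=
  (∏' j : ℕ, (1 + (2 : ℝ)⁻¹ ^ j))⁻¹ * ∏ i ∈ Finset.Icc 1 d, 2 / ((2 : ℝ) ^ i - 1)

/-- The height `max (|a| ^ 3, |b| ^ 2)`. -/
noncomputable def height (p : ℤ × ℤ) : ℝ := max (|(p.1 : ℝ)| ^ 3) (|(p.2 : ℝ)| ^ 2)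

/-- The pairs `(a, b)` in `𝔉` of height at most `X` with `4 a ^ 3 + 27 b ^ 2 ≠ 0` for which no prime number `q` satisfies both
`q ^ 4 ∣ a` and `q ^ 6 ∣ b`: one pair for each isomorphism class. -/
def Curves (𝔉 : Set (ℤ × ℤ)) (X : ℝ) : Set (ℤ × ℤ) :=
  {p | p ∈ 𝔉 ∧ 4 * p.1 ^ 3 + 27 * p.2 ^ 2 ≠ 0 ∧
    (∀ q : ℕ, q.Prime → ¬ ((q : ℤ) ^ 4 ∣ p.1 ∧ (q : ℤ) ^ 6 ∣ p.2)) ∧ height p ≤ X}

/-- `𝔉` is a union of residue classes modulo `m`. -/
def Periodic (m : ℕ) (𝔉 : Set (ℤ × ℤ)) : Prop :=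
  ∀ p ∈ 𝔉, ∀ p' : ℤ × ℤ, (m : ℤ) ∣ p'.1 - p.1 → (m : ℤ) ∣ p'.2 - p.2 → p' ∈ 𝔉

/-- The curve `y ^ 2 = x ^ 3 + a x + b` over `ℚ`. -/
def curve (p : ℤ × ℤ) : WeierstrassCurve ℚ := ⟨0, 0, 0, (p.1 : ℚ), (p.2 : ℚ)⟩

section selmer

variable (K : Type) [Field K] [NumberField K] (W : WeierstrassCurve K)

/-- The cocycle `f` of `Gal(Sep K / K)` is a coboundary over all completions of `K`: at every maximal ideal
of the ring of integers and over `ℝ` for every real embedding (over `ℂ` there is no condition). -/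
structure Locally (f : (Sep K ≃ₐ[K] Sep K) → Pt W (Sep K)) : Prop where
  finite : ∀ v : HeightOneSpectrum (𝓞 K), LocTriv W (Comp (𝓞 K) K v) (Sep (Comp (𝓞 K) K v)) f
  real : ∀ ρ : K →+* ℝ, letI := ρ.toAlgebra; LocTriv W ℝ (Sep ℝ) f

/-- A continuous cocycle of `Gal(Sep K / K)` with values in the points of order `2 ^ m`, for some `m`, which is a coboundary
(with values in all points) over all completions. -/
structure IsSelmer (f : (Sep K ≃ₐ[K] Sep K) → Pt W (Sep K)) : Prop where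
  coc : IsCoc W f
  tor : ∃ m : ℕ, ∀ σ, 2 ^ m • f σ = 0
  loc : Locally K W f

/-- Cocycles are equivalent if they differ by the coboundary of a point of 2-power order. -/
def selmerSetoid : Setoid {f : (Sep K ≃ₐ[K] Sep K) → Pt W (Sep K) // IsSelmer K W f} where
  r f f' := ∃ T : Pt W (Sep K), (∃ n : ℕ, 2 ^ n • T = 0) ∧
    ∀ σ, f.1 σ - f'.1 σ = act W (rs K σ) T - T
  iseqv := by
    refine ⟨fun f => ⟨0, ⟨0, smul_zero _⟩, fun σ => by rw [map_zero]; abel⟩, ?_, ?_⟩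
    · rintro f f' ⟨T, ⟨n, hn⟩, h⟩
      refine ⟨-T, ⟨n, by rw [smul_neg, hn, neg_zero]⟩, fun σ => ?_⟩
      have e : f'.1 σ - f.1 σ = -(f.1 σ - f'.1 σ) := by abel
      rw [map_neg, e, h σ]
      abel
    · rintro f f' f'' ⟨T, ⟨n, hn⟩, h⟩ ⟨T', ⟨n', hn'⟩, h'⟩
      refine ⟨T + T', ⟨n + n', ?_⟩, fun σ => ?_⟩
      · have e1 : 2 ^ (n + n') • T = 0 := by rw [pow_add, mul_comm, mul_smul, hn, smul_zero]
        have e2 : 2 ^ (n + n') • T' = 0 := by rw [pow_add, mul_smul, hn', smul_zero]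
        rw [smul_add, e1, e2, add_zero]
      · have e : f.1 σ - f''.1 σ = (f.1 σ - f'.1 σ) + (f'.1 σ - f''.1 σ) := by abel
        rw [e, h, h', map_add]
        abel

/-- The 2-infinity Selmer group `Sel_{2^∞}` of `W`, as a set. -/
def SelmerInf : Type := Quotient (selmerSetoid K W)

/-- The classes `x` with `2 x = 0`: the classes of the cocycles `f` for which `2 f` is the coboundary of a point of
2-power order. -/
def killed : Set (SelmerInf K W) :=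
  {x | ∃ f : {f : (Sep K ≃ₐ[K] Sep K) → Pt W (Sep K) // IsSelmer K W f},
    Quotient.mk (selmerSetoid K W) f = x ∧ ∃ T : Pt W (Sep K), (∃ n : ℕ, 2 ^ n • T = 0) ∧
      ∀ σ, (2 : ℕ) • f.1 σ = act W (rs K σ) T - T}

/-- The 2-infinity Selmer group is zero: it has only one element. -/
def SelmerZero : Prop := ∀ x y : SelmerInf K W, x = y

end selmer

section proof

open Pool.Agent.Run7.h245.SR (Sel2 SelCoc SelEqv selEqv_equivalence cb)
open Pool.Agent.Run7.h245.DJ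
open Pool.Agent.N874.PP (sW)
open Pool.Agent.N721.PP (half)

variable {K : Type} [Field K] [NumberField K]

theorem isSelmer_iff {W : WeierstrassCurve K} {f : (Sep K ≃ₐ[K] Sep K) → Pt W (Sep K)} :
    IsSelmer K W f ↔ InfCoc W f :=
  ⟨fun h => ⟨h.coc, h.tor, h.loc.finite, h.loc.real⟩, fun h => ⟨h.coc, h.tor, ⟨h.finite, h.real⟩⟩⟩

/-- The map from the 2-Selmer group. -/
def toInf (W : WeierstrassCurve K) : Sel2 K W → SelmerInf K W :=
  Quotient.lift (s := ⟨fun f f' : {f : (Sep K ≃ₐ[K] Sep K) → Pt W (Sep K) // SelCoc K W f} =>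
    SelEqv K W f.1 f'.1, selEqv_equivalence K W⟩)
    (fun f => Quotient.mk (selmerSetoid K W) ⟨f.1, isSelmer_iff.2 (selCoc_iff.1 f.2).1⟩)
    (fun f f' h => by
      obtain ⟨T, hT2, hT⟩ := h
      exact Quotient.sound ⟨T, ⟨1, by simpa using hT2⟩, hT⟩)

theorem toInf_mk (W : WeierstrassCurve K)
    (f : {f : (Sep K ≃ₐ[K] Sep K) → Pt W (Sep K) // SelCoc K W f}) :
    toInf W (Quotient.mk _ f) =
      Quotient.mk (selmerSetoid K W) ⟨f.1, isSelmer_iff.2 (selCoc_iff.1 f.2).1⟩ := rfl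

theorem toInf_inj {A B : K} (hirr : Irreducible (cb A B)) :
    Function.Injective (toInf (sW A B)) := by
  intro x y
  refine Quotient.inductionOn₂ x y fun f f' h => ?_
  refine Quotient.sound ?_
  have h1 := Quotient.exact h
  exact eqv_two hirr f.2.two f'.2.two h1

theorem toInf_range {A B : K} (hd : 4 * A ^ 3 + 27 * B ^ 2 ≠ 0) :
    Set.range (toInf (sW A B)) = killed K (sW A B) := by
  have h6 : (6 : K) ≠ 0 := by norm_num
  ext x
  constructor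
  · rintro ⟨y, rfl⟩
    refine Quotient.inductionOn y fun f => ?_
    refine ⟨⟨f.1, isSelmer_iff.2 (selCoc_iff.1 f.2).1⟩, rfl, 0, ⟨0, smul_zero _⟩, fun σ => ?_⟩
    rw [map_zero, sub_self]
    exact f.2.two σ
  · rintro ⟨f, rfl, T, ⟨n, hn⟩, hT⟩
    obtain ⟨R, hR⟩ := half h6 hd T
    have hRt : ∃ n : ℕ, 2 ^ n • R = 0 := ⟨n + 1, by
      rw [pow_succ, mul_smul, two_nsmul, hR, hn]⟩
    have hf' := (isSelmer_iff.1 f.2).sub R hRt
    have h2 : ∀ σ, (2 : ℕ) • (f.1 σ - (act (sW A B) (rs K σ) R - R)) = 0 := by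
      intro σ
      rw [nsmul_sub, nsmul_sub, ← map_nsmul, two_nsmul R, hR, hT σ, sub_self]
    refine ⟨Quotient.mk _ ⟨_, selCoc_iff.2 ⟨hf', h2⟩⟩, ?_⟩
    rw [toInf_mk]
    refine Quotient.sound ?_
    obtain ⟨n', hn'⟩ := hRt
    refine ⟨-R, ⟨n', by rw [smul_neg, hn', neg_zero]⟩, fun σ => ?_⟩
    show f.1 σ - (act (sW A B) (rs K σ) R - R) - f.1 σ = _
    rw [map_neg]
    abel

theorem killed_card {A B : K} (hd : 4 * A ^ 3 + 27 * B ^ 2 ≠ 0) (hirr : Irreducible (cb A B)) :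
    (killed K (sW A B)).ncard = Nat.card (Sel2 K (sW A B)) := by
  rw [← toInf_range hd, ← Set.image_univ, Set.ncard_image_of_injective _ (toInf_inj hirr),
    Set.ncard_univ]

theorem zero_coc (W : WeierstrassCurve K) : SelCoc K W (fun _ => 0) := by
  have hl : ∀ (L : Type) [Field L] [Algebra K L], LocTriv W L (Sep L)
      (fun _ : Sep K ≃ₐ[K] Sep K => (0 : Pt W (Sep K))) := by
    intro L _ _
    have h1 := Pool.Agent.Run7.h803.MO.cobLoc (L := L) W (0 : Pt W (Sep K))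
    have e : (fun σ : Sep K ≃ₐ[K] Sep K => act W (rs K σ) (0 : Pt W (Sep K)) - 0) =
        fun _ => (0 : Pt W (Sep K)) := by
      funext σ
      rw [map_zero, sub_self]
    rw [e] at h1
    exact h1
  refine ⟨⟨IsLocallyConstant.const 0, fun σ τ => by rw [map_zero, add_zero]⟩, fun σ => smul_zero _,
    fun v => hl _, fun ρ => ?_⟩
  letI := ρ.toAlgebra
  exact hl ℝ

theorem zero_iff {A B : K} (hd : 4 * A ^ 3 + 27 * B ^ 2 ≠ 0) (hirr : Irreducible (cb A B)) :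
    SelmerZero K (sW A B) ↔ Nat.card (Sel2 K (sW A B)) = 1 := by
  constructor
  · intro h
    rw [Nat.card_eq_one_iff_unique]
    exact ⟨⟨fun x y => toInf_inj hirr (h _ _)⟩, ⟨Quotient.mk _ ⟨_, zero_coc _⟩⟩⟩
  · intro h
    obtain ⟨h1, -⟩ := Nat.card_eq_one_iff_unique.1 h
    have h2 : ∀ f : (Sep K ≃ₐ[K] Sep K) → Pt (sW A B) (Sep K), SelCoc K (sW A B) f →
        SelEqv K (sW A B) f (fun _ => 0) := by
      intro f hf
      have h3 : (Quotient.mk _ ⟨f, hf⟩ : Sel2 K (sW A B)) = Quotient.mk _ ⟨_, zero_coc _⟩ :=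
        h1.elim _ _
      exact Quotient.exact h3
    have h3 : ∀ x : SelmerInf K (sW A B), x = Quotient.mk (selmerSetoid K (sW A B))
        ⟨_, isSelmer_iff.2 (selCoc_iff.1 (zero_coc (sW A B))).1⟩ := by
      intro x
      refine Quotient.inductionOn x fun f => ?_
      obtain ⟨m, hm⟩ := f.2.tor
      exact Quotient.sound (all_trivial hd h2 m f.1 (isSelmer_iff.1 f.2) hm)
    intro x y
    rw [h3 x, h3 y]

/-! ### The integers -/

/-- From the integers to the ring of integers of `ℚ`. -/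
noncomputable def toO (p : ℤ × ℤ) : 𝓞 ℚ × 𝓞 ℚ := ((p.1 : 𝓞 ℚ), (p.2 : 𝓞 ℚ))

theorem toO_inj : Function.Injective toO := by
  intro p p' h
  have h1 : (p.1 : 𝓞 ℚ) = (p'.1 : 𝓞 ℚ) := congrArg Prod.fst h
  have h2 : (p.2 : 𝓞 ℚ) = (p'.2 : 𝓞 ℚ) := congrArg Prod.snd h
  exact Prod.ext (Int.cast_injective h1) (Int.cast_injective h2)

theorem int_surj (x : 𝓞 ℚ) : ∃ n : ℤ, (n : 𝓞 ℚ) = x := by
  refine ⟨Rat.ringOfIntegersEquiv x, ?_⟩
  apply Rat.ringOfIntegersEquiv.injective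
  rw [map_intCast]
  simp

theorem toO_surj : Function.Surjective toO := by
  rintro ⟨x, y⟩
  obtain ⟨a, rfl⟩ := int_surj x
  obtain ⟨b, rfl⟩ := int_surj y
  exact ⟨(a, b), rfl⟩

theorem dvd_int (n a : ℤ) : (n : 𝓞 ℚ) ∣ (a : 𝓞 ℚ) ↔ n ∣ a := by
  constructor
  · rintro ⟨c, hc⟩
    obtain ⟨c', rfl⟩ := int_surj c
    refine ⟨c', ?_⟩
    have : (a : 𝓞 ℚ) = ((n * c' : ℤ) : 𝓞 ℚ) := by rw [hc]; push_cast; rfl
    exact Int.cast_injective this
  · rintro ⟨c, rfl⟩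
    exact ⟨(c : 𝓞 ℚ), by push_cast; rfl⟩

theorem ncard_pre (S : Set (𝓞 ℚ × 𝓞 ℚ)) : (toO ⁻¹' S).ncard = S.ncard := by
  conv_rhs => rw [← Set.image_preimage_eq S toO_surj]
  rw [Set.ncard_image_of_injective _ toO_inj]

theorem coe_int (n : ℤ) : (((n : 𝓞 ℚ) : 𝓞 ℚ) : ℚ) = (n : ℚ) := by
  show algebraMap (𝓞 ℚ) ℚ (n : 𝓞 ℚ) = _
  rw [map_intCast]

theorem height_le (X : ℝ) (p : ℤ × ℤ) :
    height p ≤ X ↔ toO p ∈ Pool.Agent.Run7.h245.DI.Hh (F := ℚ) X := by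
  have key : ∀ (σ : ℚ →+* ℂ) (n : ℤ), ‖σ (((n : 𝓞 ℚ) : 𝓞 ℚ) : ℚ)‖ = |(n : ℝ)| := by
    intro σ n
    rw [coe_int, map_intCast, Complex.norm_intCast]
  unfold height
  rw [max_le_iff]
  constructor
  · rintro ⟨h1, h2⟩ σ
    refine ⟨?_, ?_⟩
    · show ‖σ (((p.1 : 𝓞 ℚ) : 𝓞 ℚ) : ℚ)‖ ^ 3 ≤ X
      rw [key]
      exact h1
    · show ‖σ (((p.2 : 𝓞 ℚ) : 𝓞 ℚ) : ℚ)‖ ^ 2 ≤ X
      rw [key]
      exact h2
  · intro h
    obtain ⟨h1, h2⟩ := h (algebraMap ℚ ℂ)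
    have h1' : ‖(algebraMap ℚ ℂ) (((p.1 : 𝓞 ℚ) : 𝓞 ℚ) : ℚ)‖ ^ 3 ≤ X := h1
    have h2' : ‖(algebraMap ℚ ℂ) (((p.2 : 𝓞 ℚ) : 𝓞 ℚ) : ℚ)‖ ^ 2 ≤ X := h2
    rw [key] at h1' h2'
    exact ⟨h1', h2'⟩

/-- The minimal pairs with nonzero discriminant. -/
def MinPairs : Set (𝓞 ℚ × 𝓞 ℚ) := {p | 4 * p.1 ^ 3 + 27 * p.2 ^ 2 ≠ 0 ∧
  ∀ q : ℕ, q.Prime → ¬ ((q : 𝓞 ℚ) ^ 4 ∣ p.1 ∧ (q : 𝓞 ℚ) ^ 6 ∣ p.2)}

theorem mn_sub : Pool.Agent.Run7.h245.MO.Mn ℚ ⊆ MinPairs := by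
  rintro p ⟨h1, h2⟩
  refine ⟨h1, fun q hq h => ?_⟩
  have hq0 : (q : 𝓞 ℚ) ≠ 0 := by exact_mod_cast hq.ne_zero
  have hq1 : Ideal.span {(q : 𝓞 ℚ)} ≠ ⊤ := by
    rw [Ne, Ideal.span_singleton_eq_top]
    intro hu
    have h3 : ((q : ℤ) : 𝓞 ℚ) ∣ ((1 : ℤ) : 𝓞 ℚ) := by
      push_cast
      exact hu.dvd
    have h4 := (dvd_int _ _).1 h3
    have h5 : (q : ℤ) ∣ 1 := h4
    have h6 : q ∣ 1 := by exact_mod_cast h5
    exact hq.one_lt.ne' (Nat.dvd_one.1 h6)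
  obtain ⟨𝔭, hp, hle⟩ := Ideal.exists_le_maximal _ hq1
  have hmem : (q : 𝓞 ℚ) ∈ 𝔭 := hle (Ideal.mem_span_singleton_self _)
  refine h2 𝔭 hp.isPrime (fun hb => hq0 ?_) ⟨?_, ?_⟩
  · rw [hb] at hmem
    exact (Submodule.mem_bot _).1 hmem
  · exact Ideal.mem_of_dvd _ h.1 (Ideal.pow_mem_pow hmem 4)
  · exact Ideal.mem_of_dvd _ h.2 (Ideal.pow_mem_pow hmem 6)

theorem curves_eq (𝔉 : Set (𝓞 ℚ × 𝓞 ℚ)) (X : ℝ) :
    Curves (toO ⁻¹' 𝔉) X =
      toO ⁻¹' (Pool.Agent.Run7.h245.DI.Uq Pool.Agent.Run7.h245.DI.Hh MinPairs 𝔉 X) := by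
  have hd : ∀ p : ℤ × ℤ, 4 * p.1 ^ 3 + 27 * p.2 ^ 2 ≠ 0 ↔
      4 * (toO p).1 ^ 3 + 27 * (toO p).2 ^ 2 ≠ 0 := by
    intro p
    have e : 4 * (p.1 : 𝓞 ℚ) ^ 3 + 27 * (p.2 : 𝓞 ℚ) ^ 2 = ((4 * p.1 ^ 3 + 27 * p.2 ^ 2 : ℤ) : 𝓞 ℚ) := by
      push_cast
      rfl
    show _ ↔ 4 * (p.1 : 𝓞 ℚ) ^ 3 + 27 * (p.2 : 𝓞 ℚ) ^ 2 ≠ 0
    rw [e]
    exact (not_congr Int.cast_eq_zero).symm
  have hq : ∀ (q e : ℕ) (a : ℤ), (q : ℤ) ^ e ∣ a ↔ (q : 𝓞 ℚ) ^ e ∣ (a : 𝓞 ℚ) := by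
    intro q e a
    rw [← dvd_int]
    push_cast
    rfl
  ext p
  constructor
  · rintro ⟨h1, h2, h3, h4⟩
    refine ⟨⟨(hd p).1 h2, fun q hqp h => h3 q hqp ⟨(hq q 4 _).2 h.1, (hq q 6 _).2 h.2⟩⟩,
      (height_le X p).1 h4, h1⟩
  · rintro ⟨⟨h2, h3⟩, h4, h1⟩
    exact ⟨h1, (hd p).2 h2, fun q hqp h => h3 q hqp ⟨(hq q 4 _).1 h.1, (hq q 6 _).1 h.2⟩,
      (height_le X p).2 h4⟩

theorem curve_eq (p : ℤ × ℤ) : curve p = sW ((toO p).1 : ℚ) ((toO p).2 : ℚ) := by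
  show (⟨0, 0, 0, (p.1 : ℚ), (p.2 : ℚ)⟩ : WeierstrassCurve ℚ) =
    ⟨0, 0, 0, (((p.1 : 𝓞 ℚ) : 𝓞 ℚ) : ℚ), (((p.2 : 𝓞 ℚ) : 𝓞 ℚ) : ℚ)⟩
  rw [coe_int, coe_int]

theorem disc_ne {p : 𝓞 ℚ × 𝓞 ℚ} (h : 4 * p.1 ^ 3 + 27 * p.2 ^ 2 ≠ 0) :
    4 * (p.1 : ℚ) ^ 3 + 27 * (p.2 : ℚ) ^ 2 ≠ 0 := by
  intro hz
  refine h ?_
  have e : ((4 * p.1 ^ 3 + 27 * p.2 ^ 2 : 𝓞 ℚ) : ℚ) = 4 * (p.1 : ℚ) ^ 3 + 27 * (p.2 : ℚ) ^ 2 := by
    push_cast
    rfl
  rw [hz] at e
  exact_mod_cast e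

/-- Comparison of proportions. -/
theorem compare {α : Type} {U A B N : Set α} (hU : U.Finite) (hpos : 0 < U.ncard) (hAB : A ⊆ B)
    (hBU : B ⊆ U) (hN : N ⊆ U) (hBA : B \ A ⊆ U \ N) {c δ : ℝ}
    (h1 : |(A.ncard : ℝ) / U.ncard - c| ≤ δ / 2) (h2 : |(N.ncard : ℝ) / U.ncard - 1| ≤ δ / 2) :
    |(B.ncard : ℝ) / U.ncard - c| ≤ δ := by
  have hu : (0 : ℝ) < (U.ncard : ℝ) := by exact_mod_cast hpos
  have hB : B.Finite := hU.subset hBU
  have e1 : (A.ncard : ℝ) ≤ B.ncard := by exact_mod_cast Set.ncard_le_ncard hAB hB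
  have e2 : (B.ncard : ℝ) ≤ A.ncard + (U.ncard - N.ncard) := by
    have g1 := Set.ncard_sdiff_add_ncard_of_subset hAB hB
    have g2 := Set.ncard_sdiff_add_ncard_of_subset hN hU
    have g3 := Set.ncard_le_ncard hBA (hU.subset Set.sdiff_subset)
    have g1' : ((B \ A).ncard : ℝ) + A.ncard = B.ncard := by exact_mod_cast g1
    have g2' : ((U \ N).ncard : ℝ) + N.ncard = U.ncard := by exact_mod_cast g2
    have g3' : ((B \ A).ncard : ℝ) ≤ (U \ N).ncard := by exact_mod_cast g3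
    linarith
  have e3 : (A.ncard : ℝ) / U.ncard ≤ (B.ncard : ℝ) / U.ncard := div_le_div_of_nonneg_right e1 hu.le
  have e4 : (B.ncard : ℝ) / U.ncard ≤ (A.ncard : ℝ) / U.ncard + (1 - (N.ncard : ℝ) / U.ncard) := by
    have g := div_le_div_of_nonneg_right e2 hu.le
    have g' : ((A.ncard : ℝ) + (U.ncard - N.ncard)) / U.ncard =
        (A.ncard : ℝ) / U.ncard + (1 - (N.ncard : ℝ) / U.ncard) := by
      field_simp
    rw [g'] at g
    exact g
  rw [abs_le] at h1 h2 ⊢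
  constructor <;> linarith [h1.1, h1.2, h2.1, h2.2]

end proof

/-- For every `δ > 0` there are `m > 0` and a union `𝔉` of residue classes modulo `m` such that for all large `X` the set of the
minimal pairs `(a, b)` in `𝔉` of height at most `X` is finite and not empty, the proportion of `Sel_{2^∞} = 0` differs from
`1/2 ∏_{i ≥ 1} (1 - 2 ^ (1 - 2 i))` by at most `δ`, and for every set `E` of natural numbers the proportion of those for which
`Sel_{2^∞}[2]` has `2 ^ d` elements with `d ∈ E` differs from `∑_{d ∈ E} C_{2,d}` by at most `δ`. -/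
theorem result (δ : ℝ) (hδ : 0 < δ) :
    ∃ (m : ℕ) (𝔉 : Set (ℤ × ℤ)), 0 < m ∧ Periodic m 𝔉 ∧ ∀ᶠ X : ℝ in atTop,
      (Curves 𝔉 X).Finite ∧ 0 < (Curves 𝔉 X).ncard ∧
      |({p ∈ Curves 𝔉 X | SelmerZero ℚ (curve p)}.ncard : ℝ) / ((Curves 𝔉 X).ncard : ℝ) -
        1 / 2 * ∏' i : ℕ, (1 - (2 : ℝ)⁻¹ ^ (2 * i + 1))| ≤ δ ∧
      ∀ E : Set ℕ,
        |({p ∈ Curves 𝔉 X | ∃ d ∈ E, (killed ℚ (curve p)).ncard = 2 ^ d}.ncard : ℝ) /
          ((Curves 𝔉 X).ncard : ℝ) - ∑' d : E, prob d| ≤ δ := by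
  obtain ⟨m, 𝔉, hm, hper, h⟩ := Pool.Agent.Run7.h245.DJ.distTV Pool.Agent.Run7.h245.DI.hd_hh
    (Mq := MinPairs) mn_sub (δ / 2) (by positivity)
  refine ⟨m, toO ⁻¹' 𝔉, hm, ?_, ?_⟩
  · intro p hp p' h1 h2
    refine hper (toO p) hp (toO p') ?_ ?_
    · obtain ⟨c, hc⟩ := h1
      refine ⟨(c : 𝓞 ℚ), ?_⟩
      show (p'.1 : 𝓞 ℚ) - (p.1 : 𝓞 ℚ) = _
      rw [← Int.cast_sub, hc]
      push_cast
      rfl
    · obtain ⟨c, hc⟩ := h2
      refine ⟨(c : 𝓞 ℚ), ?_⟩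
      show (p'.2 : 𝓞 ℚ) - (p.2 : 𝓞 ℚ) = _
      rw [← Int.cast_sub, hc]
      push_cast
      rfl
  · filter_upwards [h] with X hX
    obtain ⟨h1, h2, h3⟩ := hX
    obtain ⟨U, hU⟩ : ∃ U, U = Pool.Agent.Run7.h245.DI.Uq Pool.Agent.Run7.h245.DI.Hh MinPairs 𝔉 X :=
      ⟨_, rfl⟩
    rw [← hU] at h1 h2 h3
    rw [curves_eq, ← hU]
    refine ⟨h1.preimage toO_inj.injOn, by rw [ncard_pre]; exact h2, ?_⟩
    rw [ncard_pre]
    have hdU : ∀ p : 𝓞 ℚ × 𝓞 ℚ, p ∈ U → 4 * (p.1 : ℚ) ^ 3 + 27 * (p.2 : ℚ) ^ 2 ≠ 0 := by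
      intro p hp
      rw [hU] at hp
      exact disc_ne hp.1.1
    -- the irreducible ones
    obtain ⟨N, hN⟩ : ∃ N : Set (𝓞 ℚ × 𝓞 ℚ), N = {p ∈ U | ∃ d ∈ (Set.univ : Set ℕ),
      Pool.Agent.Run7.h245.DJ.sI p = 2 ^ d} := ⟨_, rfl⟩
    have hN2 : |(N.ncard : ℝ) / U.ncard - 1| ≤ δ / 2 := by
      have g := h3 Set.univ
      have e : ∑' d : (Set.univ : Set ℕ), Pool.Agent.Run7.h245.DI.cc d = 1 := by
        rw [tsum_univ]
        exact (Pool.Agent.Run7.h245.DI.cc_sum Pool.Agent.Run7.h245.DI.aQS).tsum_eq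
      rw [e, ← hN] at g
      exact g
    have hNU : N ⊆ U := by
      rw [hN]
      exact fun p hp => hp.1
    have hirrN : ∀ p d, Pool.Agent.Run7.h245.DJ.sI p = 2 ^ d →
        Irreducible (Pool.Agent.Run7.h245.SR.cb (p.1 : ℚ) (p.2 : ℚ)) ∧
          Pool.Agent.Run7.h245.MO.sl p = 2 ^ d := by
      intro p d hp
      unfold Pool.Agent.Run7.h245.DJ.sI at hp
      split_ifs at hp with hi
      · exact ⟨hi, hp⟩
      · exact absurd hp.symm (by positivity)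
    have hcc : ∀ d, Pool.Agent.Run7.h245.DI.cc d = prob d := fun d => rfl
    constructor
    · have e0 : {p ∈ toO ⁻¹' U | SelmerZero ℚ (curve p)} =
          toO ⁻¹' {p ∈ U | SelmerZero ℚ (Pool.Agent.N874.PP.sW (p.1 : ℚ) (p.2 : ℚ))} := by
        ext p
        constructor
        · rintro ⟨g1, g2⟩
          exact ⟨g1, by rw [← curve_eq]; exact g2⟩
        · rintro ⟨g1, g2⟩
          exact ⟨g1, by rw [curve_eq]; exact g2⟩
      rw [e0, ncard_pre]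
      have g := h3 {0}
      have e1 : ∑' d : ({0} : Set ℕ), Pool.Agent.Run7.h245.DI.cc d =
          1 / 2 * ∏' i : ℕ, (1 - (2 : ℝ)⁻¹ ^ (2 * i + 1)) := by
        rw [tsum_singleton (0 : ℕ) Pool.Agent.Run7.h245.DI.cc, ← Pool.Agent.Run7.h245.DJ.euler]
        unfold Pool.Agent.Run7.h245.DI.cc
        simp
      rw [e1] at g
      refine compare h1 h2 ?_ (fun p hp => hp.1) hNU ?_ g hN2
      · rintro p ⟨g1, d, g2, g3⟩
        obtain ⟨g4, g5⟩ := hirrN p d g3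
        rw [Set.mem_singleton_iff] at g2
        rw [g2, pow_zero] at g5
        exact ⟨g1, (zero_iff (hdU p g1) g4).2 g5⟩
      · rintro p ⟨⟨g1, g2⟩, g3⟩
        refine ⟨g1, fun g4 => g3 ?_⟩
        rw [hN] at g4
        obtain ⟨-, d, -, g5⟩ := g4
        obtain ⟨g6, g7⟩ := hirrN p d g5
        have g8 := (zero_iff (hdU p g1) g6).1 g2
        refine ⟨g1, 0, rfl, ?_⟩
        unfold Pool.Agent.Run7.h245.DJ.sI
        rw [if_pos g6, pow_zero]
        exact g8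
    · intro E
      have e0 : {p ∈ toO ⁻¹' U | ∃ d ∈ E, (killed ℚ (curve p)).ncard = 2 ^ d} =
          toO ⁻¹' {p ∈ U | ∃ d ∈ E,
            (killed ℚ (Pool.Agent.N874.PP.sW (p.1 : ℚ) (p.2 : ℚ))).ncard = 2 ^ d} := by
        ext p
        constructor
        · rintro ⟨g1, g2⟩
          exact ⟨g1, by rw [← curve_eq]; exact g2⟩
        · rintro ⟨g1, g2⟩
          exact ⟨g1, by rw [curve_eq]; exact g2⟩
      rw [e0, ncard_pre]
      have g := h3 E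
      refine compare h1 h2 ?_ (fun p hp => hp.1) hNU ?_ g hN2
      · rintro p ⟨g1, d, g2, g3⟩
        obtain ⟨g4, g5⟩ := hirrN p d g3
        refine ⟨g1, d, g2, ?_⟩
        rw [killed_card (hdU p g1) g4]
        exact g5
      · rintro p ⟨⟨g1, d, g2, g2'⟩, g3⟩
        refine ⟨g1, fun g4 => g3 ?_⟩
        rw [hN] at g4
        obtain ⟨-, d', -, g5⟩ := g4
        obtain ⟨g6, g7⟩ := hirrN p d' g5
        rw [killed_card (hdU p g1) g6] at g2'
        refine ⟨g1, d, g2, ?_⟩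
        unfold Pool.Agent.Run7.h245.DJ.sI
        rw [if_pos g6]
        exact g2'

end Pool.Agent.Results.MP_a3f657_nt.TwoInfinityCongruenceFamily
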